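import Pool.Agent.Y245.SG.Stm

/-!
# Liouville's inequality
-/

set_option autoImplicit false

open Polynomial IntermediateField

namespace Pool.Agent.Y406.SG

open Pool.Agent.Y245.SG (S_LIOU)

/-- the value of a polynomial with small coefficients -/
lemma aeval_le (Q : ℤ[X]) {H A : ℝ} (hH : ∀ l, (|Q.coeff l| : ℝ) ≤ H) (z : ℂ) (hA : 1 ≤ A)
    (hz : ‖z‖ ≤ A) : ‖aeval z Q‖ ≤ 2 ^ Q.natDegree * H * A ^ Q.natDegree := by
  have hH0 : 0 ≤ H := (abs_nonneg _).trans (hH 0)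
  rw [aeval_eq_sum_range]
  refine (norm_sum_le _ _).trans ?_
  calc ∑ i ∈ Finset.range (Q.natDegree + 1), ‖Q.coeff i • z ^ i‖ ≤
        ∑ i ∈ Finset.range (Q.natDegree + 1), H * A ^ Q.natDegree := by
        refine Finset.sum_le_sum fun i hi => ?_
        rw [Finset.mem_range] at hi
        rw [zsmul_eq_mul, norm_mul, norm_pow, Complex.norm_intCast]
        refine mul_le_mul (hH i) ?_ (by positivity) hH0
        exact (pow_le_pow_left₀ (norm_nonneg _) hz i).trans (pow_le_pow_right₀ hA (by omega))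
    _ = ((Q.natDegree + 1 : ℕ) : ℝ) * (H * A ^ Q.natDegree) := by
        rw [Finset.sum_const, Finset.card_range, nsmul_eq_mul]
    _ ≤ 2 ^ Q.natDegree * (H * A ^ Q.natDegree) := by
        refine mul_le_mul_of_nonneg_right ?_ (by positivity)
        have : Q.natDegree + 1 ≤ 2 ^ Q.natDegree := Nat.lt_two_pow_self
        exact_mod_cast this
    _ = _ := by ring

theorem liou : S_LIOU := by
  intro α hα
  have hint : IsIntegral ℚ α := hα.isIntegral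
  have hfd : FiniteDimensional ℚ ℚ⟮α⟯ := IntermediateField.adjoin.finiteDimensional hint
  obtain ⟨g, hg⟩ : ∃ g : ℚ⟮α⟯, algebraMap ℚ⟮α⟯ ℂ g = α :=
    ⟨AdjoinSimple.gen ℚ α, AdjoinSimple.algebraMap_gen ℚ α⟩
  have hgalg : IsAlgebraic ℤ g :=
    (IsFractionRing.isAlgebraic_iff ℤ ℚ ℚ⟮α⟯).2 (Algebra.IsAlgebraic.isAlgebraic g)
  obtain ⟨a, ha0, hai⟩ := hgalg.exists_integral_multiple
  set σ0 : ℚ⟮α⟯ →ₐ[ℚ] ℂ := IsScalarTower.toAlgHom ℚ ℚ⟮α⟯ ℂ with hσ0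
  have hσ0g : σ0 g = α := hg
  set A : ℝ := 1 + ∑ σ : ℚ⟮α⟯ →ₐ[ℚ] ℂ, ‖σ g‖ with hA
  have hA1 : 1 ≤ A := by
    have : 0 ≤ ∑ σ : ℚ⟮α⟯ →ₐ[ℚ] ℂ, ‖σ g‖ := Finset.sum_nonneg fun _ _ => norm_nonneg _
    linarith
  have hσA : ∀ σ : ℚ⟮α⟯ →ₐ[ℚ] ℂ, ‖σ g‖ ≤ A := by
    intro σ
    have : ‖σ g‖ ≤ ∑ σ : ℚ⟮α⟯ →ₐ[ℚ] ℂ, ‖σ g‖ :=
      Finset.single_le_sum (f := fun σ : ℚ⟮α⟯ →ₐ[ℚ] ℂ => ‖σ g‖) (fun _ _ => norm_nonneg _)
        (Finset.mem_univ σ)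
    linarith
  have ha1 : (1 : ℝ) ≤ |(a : ℝ)| := by
    have : 1 ≤ |a| := Int.one_le_abs ha0
    exact_mod_cast this
  set d : ℕ := Fintype.card (ℚ⟮α⟯ →ₐ[ℚ] ℂ) with hd
  have hd1 : 1 ≤ d := Fintype.card_pos_iff.2 ⟨σ0⟩
  set K : ℝ := (2 * |(a : ℝ)| * A) ^ d with hK
  have hb1 : 1 ≤ 2 * |(a : ℝ)| * A := by
    have : 1 ≤ |(a : ℝ)| * A := one_le_mul_of_one_le_of_one_le ha1 hA1
    nlinarith
  refine ⟨d, K, hd1, one_le_pow₀ hb1, ?_⟩
  intro Q H hQ hH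
  have hH0 : 0 ≤ H := (abs_nonneg _).trans (hH 0)
  set m : ℕ := Q.natDegree with hm
  -- an algebraic integer
  set β : ℚ⟮α⟯ := (a : ℚ⟮α⟯) ^ m * aeval g Q with hβ
  have hβi : IsIntegral ℤ β := by
    have h1 : β = aeval (a • g) (Q.scaleRoots a) := by
      have h2 := scaleRoots_eval₂_mul (p := Q) (algebraMap ℤ ℚ⟮α⟯) g a
      rw [aeval_def, zsmul_eq_mul]
      rw [hβ, aeval_def]
      simpa using h2.symm
    rw [h1]
    have h3 : aeval (a • g) (Q.scaleRoots a) ∈ Algebra.adjoin ℤ {a • g} :=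
      aeval_mem_adjoin_singleton _ _
    have h4 : Algebra.adjoin ℤ {a • g} ≤ integralClosure ℤ ℚ⟮α⟯ := by
      rw [Algebra.adjoin_le_iff, Set.singleton_subset_iff]
      exact hai
    exact h4 h3
  have hval : ∀ σ : ℚ⟮α⟯ →ₐ[ℚ] ℂ, σ β = (a : ℂ) ^ m * aeval (σ g) Q := by
    intro σ
    rw [hβ, map_mul, map_pow, map_intCast]
    congr 1
    have h5 := (aeval_algHom_apply (σ.restrictScalars ℤ) g Q).symm
    exact h5
  have hβ0 : β ≠ 0 := by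
    intro h
    have h5 := hval σ0
    rw [h, map_zero, hσ0g] at h5
    have h6 : (a : ℂ) ^ m ≠ 0 := pow_ne_zero _ (by exact_mod_cast ha0)
    exact (mul_ne_zero h6 hQ) h5.symm
  -- the norm
  have hNi : IsIntegral ℤ (Algebra.norm ℚ β) := Algebra.isIntegral_norm ℚ hβi
  obtain ⟨z, hz⟩ := IsIntegrallyClosed.isIntegral_iff.1 hNi
  have hN0 : Algebra.norm ℚ β ≠ 0 := Algebra.norm_ne_zero_iff.2 hβ0
  have hz0 : z ≠ 0 := by
    intro h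
    rw [h, map_zero] at hz
    exact hN0 hz.symm
  have hprod : (z : ℂ) = ∏ σ : ℚ⟮α⟯ →ₐ[ℚ] ℂ, σ β := by
    rw [← Algebra.norm_eq_prod_embeddings ℚ ℂ β, ← hz]
    simp
  have h1 : (1 : ℝ) ≤ ∏ σ : ℚ⟮α⟯ →ₐ[ℚ] ℂ, ‖σ β‖ := by
    rw [← norm_prod, ← hprod, Complex.norm_intCast]
    have : 1 ≤ |z| := Int.one_le_abs hz0
    exact_mod_cast this
  classical
  rw [← Finset.mul_prod_erase _ _ (Finset.mem_univ σ0)] at h1
  have h2 : ∏ σ ∈ Finset.univ.erase σ0, ‖σ β‖ ≤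
      (|(a : ℝ)| ^ m * (2 ^ m * H * A ^ m)) ^ (d - 1) := by
    calc ∏ σ ∈ Finset.univ.erase σ0, ‖σ β‖ ≤
          ∏ _σ ∈ Finset.univ.erase σ0, (|(a : ℝ)| ^ m * (2 ^ m * H * A ^ m)) := by
          refine Finset.prod_le_prod (fun _ _ => norm_nonneg _) fun σ _ => ?_
          rw [hval, norm_mul, norm_pow, Complex.norm_intCast]
          exact mul_le_mul_of_nonneg_left (aeval_le Q hH _ hA1 (hσA σ)) (by positivity)
      _ = _ := by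
          rw [Finset.prod_const, Finset.card_erase_of_mem (Finset.mem_univ _), Finset.card_univ]
  have h3 : ‖σ0 β‖ = |(a : ℝ)| ^ m * ‖aeval α Q‖ := by
    rw [hval, hσ0g, norm_mul, norm_pow, Complex.norm_intCast]
  rw [h3] at h1
  have h4 : |(a : ℝ)| ^ m ≤ (2 * |(a : ℝ)| * A) ^ m := by
    refine pow_le_pow_left₀ (by positivity) ?_ m
    nlinarith
  calc (1 : ℝ) ≤ |(a : ℝ)| ^ m * ‖aeval α Q‖ *
        (|(a : ℝ)| ^ m * (2 ^ m * H * A ^ m)) ^ (d - 1) :=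
        h1.trans (mul_le_mul_of_nonneg_left h2 (by positivity))
    _ = |(a : ℝ)| ^ m * ((2 * |(a : ℝ)| * A) ^ m) ^ (d - 1) * H ^ (d - 1) * ‖aeval α Q‖ := by
        have e0 : |(a : ℝ)| ^ m * (2 ^ m * H * A ^ m) = (2 * |(a : ℝ)| * A) ^ m * H := by
          rw [mul_pow, mul_pow]
          ring
        rw [e0, mul_pow _ H]
        ring
    _ ≤ (2 * |(a : ℝ)| * A) ^ m * ((2 * |(a : ℝ)| * A) ^ m) ^ (d - 1) * H ^ (d - 1) *
        ‖aeval α Q‖ := by gcongr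
    _ = K ^ m * H ^ (d - 1) * ‖aeval α Q‖ := by
        have e1 : (2 * |(a : ℝ)| * A) ^ m * ((2 * |(a : ℝ)| * A) ^ m) ^ (d - 1) = K ^ m := by
          rw [hK, ← pow_succ', Nat.sub_add_cancel hd1, ← pow_mul, ← pow_mul, mul_comm m d]
        rw [e1]
    _ ≤ K ^ (m + 1) * H ^ (d - 1) * ‖aeval α Q‖ := by
        have : K ^ m ≤ K ^ (m + 1) := pow_le_pow_right₀ (one_le_pow₀ hb1) (by omega)
        gcongr

end Pool.Agent.Y406.SG
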