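import Pool.Agent.Y698.SG.Gx

/-!
# Squares and local points at the places of even degree
-/

set_option autoImplicit false
set_option linter.unusedSectionVars false

namespace Pool.Agent.Y406.SG

open NumberField IsDedekindDomain WithZero
open Pool.Agent.Y698
open Pool.Agent.H921R2.TatePole Pool.Agent.H82R3.EK
open Pool.Agent.Y698.SG.Cv (LocI)
open Pool.Agent.Y698.SG.Gx (S_LV1 S_LV2)
open Pool.Agent.H723R3 (exists_approx_int)

/-- `2 (p - 1)` divides `p ^ f - 1`, `f` even -/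
lemma dvd2 {p f : ℕ} (hp : p % 2 = 1) (hf : 2 ∣ f) : 2 * 1 * (p - 1) ∣ p ^ f - 1 := by
  obtain ⟨n, rfl⟩ := hf
  obtain ⟨k, rfl⟩ : ∃ k, p = 2 * k + 1 := ⟨p / 2, by omega⟩
  have h1 : (2 * k + 1) ^ 2 - 1 ∣ ((2 * k + 1) ^ 2) ^ n - 1 ^ n := Nat.sub_dvd_pow_sub_pow _ _ _
  rw [one_pow, ← pow_mul] at h1
  refine dvd_trans ?_ h1
  refine ⟨k + 1, ?_⟩
  have e : (2 * k + 1) ^ 2 = 2 * 1 * (2 * k) * (k + 1) + 1 := by ring
  rw [e, Nat.add_sub_cancel, Nat.add_sub_cancel]

/-- `4 (p - 1)` divides `p ^ f - 1`, `4 ∣ f` -/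
lemma dvd4 {p f : ℕ} (hp : p % 2 = 1) (hf : 4 ∣ f) : 2 * 2 * (p - 1) ∣ p ^ f - 1 := by
  obtain ⟨n, rfl⟩ := hf
  obtain ⟨k, rfl⟩ : ∃ k, p = 2 * k + 1 := ⟨p / 2, by omega⟩
  have h1 : (2 * k + 1) ^ 4 - 1 ∣ ((2 * k + 1) ^ 4) ^ n - 1 ^ n := Nat.sub_dvd_pow_sub_pow _ _ _
  rw [one_pow, ← pow_mul] at h1
  refine dvd_trans ?_ h1
  refine ⟨(k + 1) * (2 * k ^ 2 + 2 * k + 1), ?_⟩
  have e : (2 * k + 1) ^ 4 = 2 * 2 * (2 * k) * ((k + 1) * (2 * k ^ 2 + 2 * k + 1)) + 1 := by ring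
  rw [e, Nat.add_sub_cancel, Nat.add_sub_cancel]

section

variable {K : Type} [Field K] [NumberField K]

/-- squares in the residue field -/
lemma sqk (v : HeightOneSpectrum (𝓞 K)) {p c : ℕ} (hp : p.Prime) (hv : (below v : ℕ) = p)
    (hp2 : p ≠ 2) (hd : 2 * c * (p - 1) ∣ p ^ deg v - 1) (x : 𝓞 K) (hx : x ∉ v.asIdeal)
    (hx1 : (Ideal.Quotient.mk v.asIdeal x) ^ (c * (p - 1)) = 1) :
    ∃ y : 𝓞 K, x - y * y ∈ v.asIdeal := by
  have hpp := v.isPrime
  have hmax : v.asIdeal.IsMaximal := v.isPrime.isMaximal v.ne_bot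
  have hcard : Nat.card (𝓞 K ⧸ v.asIdeal) = p ^ deg v := by rw [card_quo, hv]
  have hfin : Finite (𝓞 K ⧸ v.asIdeal) := Nat.finite_of_card_ne_zero (by
    rw [hcard]; exact pow_ne_zero _ hp.ne_zero)
  let _ : Field (𝓞 K ⧸ v.asIdeal) := Ideal.Quotient.field v.asIdeal
  let _ : Fintype (𝓞 K ⧸ v.asIdeal) := Fintype.ofFinite _
  have hcard' : Fintype.card (𝓞 K ⧸ v.asIdeal) = p ^ deg v := by
    rw [← Nat.card_eq_fintype_card, hcard]
  have hpo : p % 2 = 1 := hp.eq_two_or_odd.resolve_left hp2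
  have hodd : Fintype.card (𝓞 K ⧸ v.asIdeal) % 2 = 1 := by
    rw [hcard', Nat.pow_mod, hpo, one_pow, Nat.one_mod]
  have hchar : ringChar (𝓞 K ⧸ v.asIdeal) ≠ 2 := by
    rw [Ne, FiniteField.even_card_iff_char_two, hodd]
    norm_num
  have hx0 : Ideal.Quotient.mk v.asIdeal x ≠ 0 := by
    intro h
    exact hx (Ideal.Quotient.eq_zero_iff_mem.1 h)
  have hsq : IsSquare (Ideal.Quotient.mk v.asIdeal x) := by
    rw [FiniteField.isSquare_iff hchar hx0]
    obtain ⟨k, hk⟩ := hd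
    have h3 : Fintype.card (𝓞 K ⧸ v.asIdeal) / 2 = c * (p - 1) * k := by
      have h4 : Fintype.card (𝓞 K ⧸ v.asIdeal) = 2 * (c * (p - 1) * k) + 1 := by
        have h5 : 2 * c * (p - 1) * k = 2 * (c * (p - 1) * k) := by ring
        rw [← h5, ← hk, hcard']
        have : 0 < p ^ deg v := pow_pos hp.pos _
        omega
      omega
    rw [h3, pow_mul, hx1, one_pow]
  obtain ⟨t, ht⟩ := hsq
  obtain ⟨y, rfl⟩ := Ideal.Quotient.mk_surjective t
  refine ⟨y, ?_⟩
  rw [← Ideal.Quotient.eq, map_mul, ← ht]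

/-- the integers prime to `p` -/
lemma not_mem_of (v : HeightOneSpectrum (𝓞 K)) {p : ℕ} (hp : p.Prime) (hv : (below v : ℕ) = p)
    {m : ℤ} (hm : ¬ ((p : ℤ) ∣ m)) : (m : 𝓞 K) ∉ v.asIdeal := by
  intro h
  have : Fact p.Prime := ⟨hp⟩
  obtain ⟨f⟩ := exists_hom v hp hv
  have hnt : Nontrivial (𝓞 K ⧸ v.asIdeal) := Ideal.Quotient.nontrivial_iff.2 v.isPrime.ne_top
  have h1 := Ideal.Quotient.eq_zero_iff_mem.2 h
  rw [map_intCast] at h1
  have h2 : f ((m : ℤ) : ZMod p) = 0 := by rw [map_intCast, h1]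
  rw [map_eq_zero] at h2
  exact hm ((ZMod.intCast_zmod_eq_zero_iff_dvd m p).1 h2)

lemma val_of_not_mem (v : HeightOneSpectrum (𝓞 K)) {m : ℤ} (hm : (m : 𝓞 K) ∉ v.asIdeal) :
    v.valuation K (m : K) = 1 := by
  have e2 : (m : K) = algebraMap (𝓞 K) K ((m : ℤ) : 𝓞 K) := by rw [map_intCast]
  rw [e2]
  apply le_antisymm (v.valuation_le_one _)
  by_contra hlt
  push Not at hlt
  exact hm ((v.valuation_lt_one_iff_mem (K := K) _).1 hlt)

lemma pow_one_of (v : HeightOneSpectrum (𝓞 K)) {p : ℕ} (hp : p.Prime) (hv : (below v : ℕ) = p)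
    {m : ℤ} (hm : ¬ ((p : ℤ) ∣ m)) : ((m : ℤ) : 𝓞 K ⧸ v.asIdeal) ^ (p - 1) = 1 := by
  have : Fact p.Prime := ⟨hp⟩
  obtain ⟨f⟩ := exists_hom v hp hv
  have h0 : ((m : ℤ) : ZMod p) ≠ 0 := by
    intro h
    exact hm ((ZMod.intCast_zmod_eq_zero_iff_dvd m p).1 h)
  have h1 : ((m : ℤ) : 𝓞 K ⧸ v.asIdeal) = f ((m : ℤ) : ZMod p) := by rw [map_intCast]
  rw [h1, ← map_pow, ZMod.pow_card_sub_one_eq_one h0, map_one]

lemma two_val (v : HeightOneSpectrum (𝓞 K)) (h2 : (below v : ℕ) ≠ 2) : v.valuation K 2 = 1 := by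
  exact_mod_cast val_one_of v Nat.prime_two h2

/-- an element which is a square modulo `v` is a square in the completion -/
lemma sq_lift' (v : HeightOneSpectrum (𝓞 K)) (h2 : v.valuation K 2 = 1) {t Y : v.adicCompletion K}
    (ht : (Valued.v : Valuation (v.adicCompletion K) ℤᵐ⁰) t = 1)
    (h1 : (Valued.v : Valuation (v.adicCompletion K) ℤᵐ⁰) (t - Y * Y) < 1) : IsSquare t := by
  have h3 : (Valued.v : Valuation (v.adicCompletion K) ℤᵐ⁰) (Y * Y) = 1 := by
    have e : Y * Y = t - (t - Y * Y) := by ring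
    rw [e, Valuation.map_sub_eq_of_lt_left, ht]
    rw [ht]
    exact h1
  have hY0 : Y ≠ 0 := by
    intro h0
    rw [h0, mul_zero, map_zero] at h3
    exact zero_ne_one h3
  obtain ⟨z, hz⟩ := hensel_sq v h2 (t / (Y * Y)) (by
    have e : t / (Y * Y) - 1 = (t - Y * Y) / (Y * Y) := by
      field_simp
    rw [e, map_div₀, h3, div_one]
    exact h1)
  refine ⟨z * Y, ?_⟩
  rw [div_eq_iff (mul_ne_zero hY0 hY0)] at hz
  rw [hz]
  ring

end

/-- LV1 -/
theorem t_LV1 : S_LV1 := by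
  intro K _ _ v m h2 hd hm
  have hp := (below v).2
  have hnm := not_mem_of v hp rfl hm
  have hpo : (below v : ℕ) % 2 = 1 := hp.eq_two_or_odd.resolve_left h2
  obtain ⟨y, hy⟩ := sqk v hp rfl h2 (c := 1) (dvd2 hpo hd) (m : 𝓞 K) hnm (by
    rw [one_mul, map_intCast]
    exact pow_one_of v hp rfl hm)
  exact sq_lift v (two_val v h2) hy (val_of_not_mem v hnm)

/-- LV2 -/
theorem t_LV2 : S_LV2 := by
  intro K _ _ v d' e h2 h7 hd' he hcase
  have hp := (below v).2
  have hF : Fact (below v : ℕ).Prime := ⟨hp⟩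
  have hpo : (below v : ℕ) % 2 = 1 := hp.eq_two_or_odd.resolve_left h2
  have hcz : CharZero (v.adicCompletion K) :=
    charZero_of_injective_algebraMap (algebraMap K (v.adicCompletion K)).injective
  have hde : 2 ∣ deg v := by
    rcases hcase with h | h
    · exact h.2
    · exact dvd_trans (by norm_num) h
  have n7 : ¬ (((below v : ℕ) : ℤ) ∣ 7) := by
    intro h
    exact h7 ((Nat.prime_dvd_prime_iff_eq hp (by norm_num)).1 (by exact_mod_cast h))
  have n2 : ¬ (((below v : ℕ) : ℤ) ∣ 2) := by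
    intro h
    exact h2 ((Nat.prime_dvd_prime_iff_eq hp (by norm_num)).1 (by exact_mod_cast h))
  obtain ⟨t, ht⟩ := t_LV1 K v 7 h2 hde n7
  obtain ⟨s, hs⟩ := t_LV1 K v 2 h2 hde n2
  obtain ⟨w, hw⟩ := t_LV1 K v e h2 hde he
  have m7 := not_mem_of v hp rfl n7
  have v7 := val_of_not_mem v m7
  have ht1 : (Valued.v : Valuation (v.adicCompletion K) ℤᵐ⁰) t = 1 := by
    have h3 : (Valued.v : Valuation (v.adicCompletion K) ℤᵐ⁰) (t * t) = 1 := by
      rw [← ht]
      have h4 := val_emb v ((7 : ℤ) : K)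
      rw [v7, map_intCast] at h4
      exact h4
    rw [map_mul] at h3
    rcases lt_trichotomy ((Valued.v : Valuation (v.adicCompletion K) ℤᵐ⁰) t) 1 with h | h | h
    · exact absurd h3 (mul_lt_one_of_lt_of_le h h.le).ne
    · exact h
    · exact absurd h3 (one_lt_mul_of_lt_of_le h h.le).ne'
  obtain ⟨T, hT⟩ := exists_approx_int (R := 𝓞 K) v
    ((HeightOneSpectrum.mem_adicCompletionIntegers (𝓞 K) K v).2 ht1.le) 1
  rw [Units.val_one] at hT
  have eT : algebraMap (𝓞 K) (v.adicCompletion K) T =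
      algebraMap K (v.adicCompletion K) (algebraMap (𝓞 K) K T) := by
    rw [← IsScalarTower.algebraMap_apply]
  have hle : ∀ a b : v.adicCompletion K,
      (Valued.v : Valuation (v.adicCompletion K) ℤᵐ⁰) a < 1 →
      (Valued.v : Valuation (v.adicCompletion K) ℤᵐ⁰) b ≤ 1 →
      (Valued.v : Valuation (v.adicCompletion K) ℤᵐ⁰) (a * b) < 1 := by
    intro a b ha hb
    rw [map_mul]
    exact mul_lt_one_of_lt_of_le ha hb
  have vT : (Valued.v : Valuation (v.adicCompletion K) ℤᵐ⁰)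
      (algebraMap (𝓞 K) (v.adicCompletion K) T) ≤ 1 := by
    rw [eT, val_emb]
    exact v.valuation_le_one _
  have h5 : T * T - ((7 : ℤ) : 𝓞 K) ∈ v.asIdeal := by
    rw [← v.valuation_lt_one_iff_mem (K := K), ← val_emb]
    show (Valued.v : Valuation (v.adicCompletion K) ℤᵐ⁰) (algebraMap K (v.adicCompletion K)
      (algebraMap (𝓞 K) K (T * T - ((7 : ℤ) : 𝓞 K)))) < 1
    rw [map_sub, map_mul, map_sub, map_mul, ← eT, map_intCast, map_intCast, ht]
    have e1 : algebraMap (𝓞 K) (v.adicCompletion K) T * algebraMap (𝓞 K) (v.adicCompletion K) T -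
        t * t = (algebraMap (𝓞 K) (v.adicCompletion K) T - t) *
          (algebraMap (𝓞 K) (v.adicCompletion K) T + t) := by ring
    rw [e1]
    refine hle _ _ hT ((Valuation.map_add _ _ _).trans (max_le vT ht1.le))
  have h6 : (Ideal.Quotient.mk v.asIdeal T) * (Ideal.Quotient.mk v.asIdeal T) =
      ((7 : ℤ) : 𝓞 K ⧸ v.asIdeal) := by
    have := (Ideal.Quotient.eq).2 h5
    rw [map_mul, map_intCast] at this
    exact this
  have hTn : T ∉ v.asIdeal := by
    intro h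
    apply m7
    have h8 := v.asIdeal.sub_mem (v.asIdeal.mul_mem_left T h) h5
    rwa [sub_sub_cancel] at h8
  have hy : ∃ y : 𝓞 K, T - y * y ∈ v.asIdeal := by
    have hpp := v.isPrime
    rcases hcase with ⟨⟨z, hz⟩, -⟩ | h4
    · refine sqk v hp rfl h2 (c := 1) (dvd2 hpo hde) T hTn ?_
      rw [one_mul]
      obtain ⟨f⟩ := exists_hom v hp rfl
      have h8 : (Ideal.Quotient.mk v.asIdeal T) * (Ideal.Quotient.mk v.asIdeal T) = f z * f z := by
        rw [h6, ← map_mul, ← hz]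
        have : ((7 : ℤ) : ZMod (below v : ℕ)) = 7 := by norm_num
        rw [← this, map_intCast]
      have hz0 : z ≠ 0 := by
        rintro rfl
        rw [mul_zero] at hz
        have : ((7 : ℤ) : ZMod (below v : ℕ)) = 0 := by
          rw [← hz]
          norm_num
        exact n7 ((ZMod.intCast_zmod_eq_zero_iff_dvd 7 _).1 this)
      rcases mul_self_eq_mul_self_iff.1 h8 with h9 | h9
      · rw [h9, ← map_pow, ZMod.pow_card_sub_one_eq_one hz0, map_one]
      · rw [h9, ← map_neg, ← map_pow, ZMod.pow_card_sub_one_eq_one (neg_ne_zero.2 hz0), map_one]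
    · refine sqk v hp rfl h2 (c := 2) (dvd4 hpo h4) T hTn ?_
      rw [pow_mul, sq, h6]
      exact pow_one_of v hp rfl n7
  obtain ⟨y, hy⟩ := hy
  obtain ⟨u, hu⟩ := sq_lift' v (two_val v h2) (t := t)
    (Y := algebraMap (𝓞 K) (v.adicCompletion K) y) ht1 (by
      have h8 : (Valued.v : Valuation (v.adicCompletion K) ℤᵐ⁰)
          (algebraMap (𝓞 K) (v.adicCompletion K) (T - y * y)) < 1 := by
        rw [IsScalarTower.algebraMap_apply (𝓞 K) K (v.adicCompletion K), val_emb]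
        exact (v.valuation_lt_one_iff_mem (K := K) _).2 hy
      rw [map_sub, map_mul] at h8
      have e1 : t - algebraMap (𝓞 K) (v.adicCompletion K) y *
          algebraMap (𝓞 K) (v.adicCompletion K) y =
          (algebraMap (𝓞 K) (v.adicCompletion K) T - algebraMap (𝓞 K) (v.adicCompletion K) y *
          algebraMap (𝓞 K) (v.adicCompletion K) y) -
          (algebraMap (𝓞 K) (v.adicCompletion K) T - t) := by ring
      rw [e1]
      exact Valuation.map_sub_lt _ h8 hT)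
  have hs0 : s ≠ 0 := by
    rintro rfl
    rw [mul_zero] at hs
    have : (2 : v.adicCompletion K) = 0 := by exact_mod_cast hs
    exact two_ne_zero this
  have hp0 : ((below v : ℕ) : v.adicCompletion K) ≠ 0 := by exact_mod_cast hp.ne_zero
  have hd0 : (d' : v.adicCompletion K) ≠ 0 := by exact_mod_cast hd'
  have he0 : (e : v.adicCompletion K) ≠ 0 := by
    have : e ≠ 0 := by
      rintro rfl
      exact he (dvd_zero _)
    exact_mod_cast this
  have ht7 : t * t = 7 := by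
    rw [← ht]
    norm_num
  have hs2 : s * s = 2 := by
    rw [← hs]
    norm_num
  have h21 : 21 + 8 * t ≠ 0 := by
    intro h
    have h8 : (7 : v.adicCompletion K) = 0 := by
      linear_combination (-(21 - 8 * t)) * h - 64 * ht7
    exact (by norm_num : (7 : v.adicCompletion K) ≠ 0) h8
  refine ⟨((below v : ℕ) : v.adicCompletion K) * d' * e * (21 + 8 * t), 0, w * u * (3 + t) / s,
    mul_ne_zero (mul_ne_zero (mul_ne_zero hp0 hd0) he0) h21, ?_, ?_⟩
  · push_cast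
    have key : ∀ M : v.adicCompletion K, (0 : v.adicCompletion K) ^ 2 =
        (M * (21 + 8 * t)) ^ 3 - 2 * (21 * M) * (M * (21 + 8 * t)) ^ 2 +
        ((21 * M) ^ 2 - 4 * (112 * M ^ 2)) * (M * (21 + 8 * t)) := by
      intro M
      linear_combination (-(64 * M ^ 3 * (21 + 8 * t))) * ht7
    exact key _
  · push_cast
    rw [div_pow]
    have e1 : (s : v.adicCompletion K) ^ 2 = 2 := by rw [sq, hs2]
    rw [e1]
    have e2 : (w * u * (3 + t)) ^ 2 = e * (2 * (21 + 8 * t)) := by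
      have e3 : (w * u * (3 + t)) ^ 2 = (w * w) * ((u * u) * (3 + t) ^ 2) := by ring
      rw [e3, ← hw, ← hu]
      linear_combination (e : v.adicCompletion K) * (t + 6) * ht7
    rw [e2]
    field_simp

end Pool.Agent.Y406.SG
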